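import Mathlib
import Pool.Agent.Helper12.Gam.Main

/-!
# The value 1/2 is attained below sets of Gamma-value 1/2

If `Γ(X) = 1/2` then every set `Y` Turing reducible to `X` agrees with some computable set on a set
of lower density exactly `1/2`.

Idea.  `Γ(X) > 1/3` says that every `X`-computable string-valued function on the intervals
`J_m = [4^m, 4^(m+1))` is eventually different from a computable one.  Group the `m` in blocks of
length `W`.  A two-step adaptive argument then avoids `X`-computable sets of up to `W^2` pairs of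
strings per block: first avoid the fewer than `W` first components which occur more than `W`
times, then the at most `W` remaining second components.  This is enough room to run list decoding
for nearly orthogonal codes (Reed-Solomon codes concatenated with Hadamard codes) with an error
tending to `0`.
-/

set_option autoImplicit false

namespace Pool.Agent.Results.MP_f1effe_lc.GammaHalfAttained

open Filter Topology Finset Pool.Agent.Helper12.Gam

open Classical in
/-- The characteristic function of a set of natural numbers. -/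
noncomputable def char (S : Set ℕ) (n : ℕ) : ℕ := if n ∈ S then 1 else 0

/-- Turing reducibility of sets of natural numbers: the characteristic function of `Y` is Turing
reducible to the characteristic function of `X`. -/
def TuringLE (Y X : Set ℕ) : Prop :=
  TuringReducible (fun n => Part.some (char Y n)) (fun n => Part.some (char X n))

/-- A set of natural numbers is computable if its membership predicate is. -/
def IsComputableSet (C : Set ℕ) : Prop := ComputablePred (fun n => n ∈ C)

/-- The lower density `liminf |S ∩ {0, …, n-1}| / n`. -/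
noncomputable def lowerDensity (S : Set ℕ) : ℝ :=
  liminf (fun n : ℕ => ((S ∩ Set.Iio n).ncard : ℝ) / n) atTop

/-- The set of arguments at which `Y` and `A` agree. -/
def agreement (Y A : Set ℕ) : Set ℕ := {n | n ∈ Y ↔ n ∈ A}

/-- The coarse computability bound `γ(Y)`. -/
noncomputable def coarseBound (Y : Set ℕ) : ℝ :=
  sSup {r : ℝ | ∃ C : Set ℕ, IsComputableSet C ∧ lowerDensity (agreement Y C) = r}

/-- The Gamma-value `Γ(X)`. -/
noncomputable def GammaValue (X : Set ℕ) : ℝ :=
  sInf {r : ℝ | ∃ Y : Set ℕ, TuringLE Y X ∧ coarseBound Y = r}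

theorem char_le (S : Set ℕ) (n : ℕ) : char S n ≤ 1 := by
  unfold char; split_ifs <;> simp

theorem char_eq_one {S : Set ℕ} {n : ℕ} : char S n = 1 ↔ n ∈ S := by
  unfold char; split_ifs with h <;> simp [h]

theorem char_eq_zero {S : Set ℕ} {n : ℕ} : char S n = 0 ↔ n ∉ S := by
  unfold char; split_ifs with h <;> simp [h]

theorem turingLE_iff (Y X : Set ℕ) :
    TuringLE Y X ↔ RecIn {(fun n => Part.some (char X n) : ℕ →. ℕ)} (char Y) := by
  unfold TuringLE TuringReducible RecIn
  exact RecursiveIn.iff_nat

theorem ncard_le (S : Set ℕ) (n : ℕ) : (S ∩ Set.Iio n).ncard ≤ n := by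
  calc (S ∩ Set.Iio n).ncard ≤ (Set.Iio n).ncard :=
        Set.ncard_le_ncard Set.inter_subset_right (Set.finite_Iio n)
    _ = n := by rw [← coe_Iio, Set.ncard_coe_finset, Nat.card_Iio]

theorem ratio_nonneg (S : Set ℕ) (n : ℕ) : 0 ≤ ((S ∩ Set.Iio n).ncard : ℝ) / n := by positivity

theorem ratio_le (S : Set ℕ) (n : ℕ) : ((S ∩ Set.Iio n).ncard : ℝ) / n ≤ 1 := by
  apply div_le_one_of_le₀ _ (by positivity)
  exact_mod_cast ncard_le S n

theorem lowerDensity_nonneg (S : Set ℕ) : 0 ≤ lowerDensity S := by
  unfold lowerDensity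
  apply le_liminf_of_le
  · exact ⟨1, fun a ha => by
      rw [eventually_map] at ha
      obtain ⟨n, hn⟩ := ha.exists
      exact hn.trans (ratio_le S n)⟩
  · exact Eventually.of_forall (ratio_nonneg S)

theorem isComputable_empty : IsComputableSet ∅ := by
  refine ⟨fun _ => isFalse (by simp), ?_⟩
  refine (Computable.const false).of_eq ?_
  intro n
  simp

theorem coarseBound_nonneg (Y : Set ℕ) : 0 ≤ coarseBound Y := by
  unfold coarseBound
  apply Real.sSup_nonneg
  rintro r ⟨C, _, rfl⟩
  exact lowerDensity_nonneg _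

theorem computable_char {C : Set ℕ} (hC : IsComputableSet C) : Computable (char C) := by
  obtain ⟨D, hD⟩ := hC
  refine (Computable.cond hD (Computable.const 1) (Computable.const 0)).of_eq ?_
  intro n
  by_cases h : n ∈ C
  · rw [char_eq_one.2 h]; simp [h]
  · rw [char_eq_zero.2 h]; simp [h]

theorem propE_of_Gamma {X : Set ℕ} (hX : 1 / 3 < GammaValue X) :
    PropE {(fun n => Part.some (char X n) : ℕ →. ℕ)} := by
  intro z hz1 hz
  -- the complement of `z`
  set Z : Set ℕ := {x | z x = 0} with hZ
  have hcharZ : char Z = fun x => 1 - z x := by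
    funext x
    by_cases h : z x = 0
    · rw [char_eq_one.2 (show x ∈ Z from h), h]
    · rw [char_eq_zero.2 (show x ∉ Z from h)]
      have := hz1 x
      omega
  have hZX : TuringLE Z X := by
    rw [turingLE_iff, hcharZ]
    have h1 : Computable (fun n : ℕ => 1 - n) := c_sub (c_const 1) Computable.id
    exact (RecIn.of_computable h1).comp hz
  have h1 : GammaValue X ≤ coarseBound Z := by
    unfold GammaValue
    apply csInf_le
    · refine ⟨0, ?_⟩
      rintro r ⟨Y, _, rfl⟩
      exact coarseBound_nonneg Y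
    · exact ⟨Z, hZX, rfl⟩
  have h2 : 1 / 3 < coarseBound Z := lt_of_lt_of_le hX h1
  unfold coarseBound at h2
  have hne : {r : ℝ | ∃ C : Set ℕ, IsComputableSet C ∧
      lowerDensity (agreement Z C) = r}.Nonempty := ⟨_, ∅, isComputable_empty, rfl⟩
  obtain ⟨r, ⟨C, hC, rfl⟩, hr⟩ := exists_lt_of_lt_csSup hne h2
  refine ⟨char C, computable_char hC, char_le C, ?_⟩
  have h3 : ∀ᶠ n : ℕ in atTop, 1 / 3 < (((agreement Z C) ∩ Set.Iio n).ncard : ℝ) / n := by
    unfold lowerDensity at hr
    exact eventually_lt_of_lt_liminf hr (isBoundedUnder_of ⟨0, fun n => ratio_nonneg _ n⟩)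
  have h4 : Tendsto (fun m : ℕ => 4 ^ (m + 1)) atTop atTop :=
    (tendsto_pow_atTop_atTop_of_one_lt (by norm_num : 1 < 4)).comp (tendsto_add_atTop_nat 1)
  filter_upwards [h4.eventually h3] with m hm
  by_contra hcon
  push Not at hcon
  have hsub : (agreement Z C) ∩ Set.Iio (4 ^ (m + 1)) ⊆ Set.Iio (4 ^ m) := by
    rintro x ⟨hx1, hx2⟩
    rw [Set.mem_Iio] at hx2 ⊢
    by_contra hx3
    have h5 := hcon x (by omega) hx2
    have h6 : x ∈ Z ↔ x ∈ C := hx1
    by_cases hxZ : z x = 0
    · have h7 : x ∈ C := h6.1 hxZ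
      rw [char_eq_one.2 h7] at h5
      omega
    · have h7 : x ∉ C := fun h => hxZ (h6.2 h)
      rw [char_eq_zero.2 h7] at h5
      omega
  have h8 : ((agreement Z C) ∩ Set.Iio (4 ^ (m + 1))).ncard ≤ 4 ^ m := by
    calc ((agreement Z C) ∩ Set.Iio (4 ^ (m + 1))).ncard ≤ (Set.Iio (4 ^ m)).ncard :=
          Set.ncard_le_ncard hsub (Set.finite_Iio _)
      _ = 4 ^ m := by rw [← coe_Iio, Set.ncard_coe_finset, Nat.card_Iio]
  have h9 : (((agreement Z C) ∩ Set.Iio (4 ^ (m + 1))).ncard : ℝ) ≤ (4 : ℝ) ^ m := by
    exact_mod_cast h8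
  have h10 : ((4 ^ (m + 1) : ℕ) : ℝ) = 4 * 4 ^ m := by push_cast; ring
  rw [h10, lt_div_iff₀ (by positivity)] at hm
  have h11 : (0 : ℝ) < 4 ^ m := by positivity
  linarith

theorem ncard_agreement (Y : Set ℕ) (A0 : ℕ → ℕ) (hA0 : ∀ x, A0 x ≤ 1) (n : ℕ) :
    (((agreement Y {x | A0 x = 1}) ∩ Set.Iio n).ncard : ℝ) = (n + disc (char Y) A0 n) / 2 := by
  classical
  have h1 : (agreement Y {x | A0 x = 1}) ∩ Set.Iio n =
      ((range n).filter (fun x => char Y x = A0 x) : Finset ℕ) := by
    ext x
    simp only [agreement, Set.mem_inter_iff, Set.mem_ofPred_eq, Set.mem_Iio, coe_filter, mem_range]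
    rw [and_comm]
    refine and_congr_right fun _ => ?_
    have h2 := hA0 x
    by_cases h : x ∈ Y
    · rw [char_eq_one.2 h]
      simp only [h, true_iff]
      exact eq_comm
    · rw [char_eq_zero.2 h]
      simp only [h, false_iff]
      omega
  rw [h1, Set.ncard_coe_finset, card_filter]
  unfold disc
  have h2 : ∀ x ∈ range n, sg (char Y x) * sg (A0 x) = 2 * (eq01 (char Y x) (A0 x) : ℝ) - 1 :=
    fun x _ => sg_mul_sg (char_le Y x) (hA0 x)
  rw [sum_congr rfl h2, sum_sub_distrib, ← mul_sum]
  simp only [sum_const, card_range, nsmul_eq_mul, mul_one, eq01]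
  push_cast
  ring

/-- **The value `1/2` is attained.**  If `Γ(X) = 1/2`, then for every `Y ≤_T X` there is a
computable set `A` such that the lower density of the set where `Y` and `A` agree is `1/2`. -/
theorem result : ∀ X : Set ℕ, GammaValue X = 1 / 2 → ∀ Y : Set ℕ, TuringLE Y X →
    ∃ A : Set ℕ, IsComputableSet A ∧ lowerDensity (agreement Y A) = 1 / 2 := by
  intro X hX Y hY
  have hE := propE_of_Gamma (X := X) (by rw [hX]; norm_num)
  obtain ⟨A0, hA0c, hA01, hA0⟩ := main_construction hE ((turingLE_iff Y X).1 hY) (char_le Y)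
  refine ⟨{x | A0 x = 1}, ?_, ?_⟩
  · refine ⟨fun x => decEq (A0 x) 1, ?_⟩
    have h1 : Computable (fun x => decide (A0 x = 1)) := by
      have h2 : Primrec (fun n : ℕ => if n = 1 then true else false) :=
        Primrec.ite (Primrec.eq.comp Primrec.id (Primrec.const 1)) (Primrec.const true)
          (Primrec.const false)
      refine (h2.to_comp.comp hA0c).of_eq fun x => ?_
      by_cases h : A0 x = 1 <;> simp [h]
    exact h1
  · unfold lowerDensity
    apply Tendsto.liminf_eq
    have h1 : Tendsto (fun n : ℕ => (1 : ℝ) / 2 + (disc (char Y) A0 n / n) / 2) atTop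
        (𝓝 (1 / 2 + 0 / 2)) := (hA0.div_const 2).const_add _
    rw [zero_div, add_zero] at h1
    refine h1.congr' ?_
    filter_upwards [eventually_gt_atTop 0] with n hn
    rw [ncard_agreement Y A0 hA01 n]
    have : (n : ℝ) ≠ 0 := by positivity
    field_simp

end Pool.Agent.Results.MP_f1effe_lc.GammaHalfAttained
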